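import Pool.Agent.V5helper35.AS.Stm

/-! Project AS, job COVA. -/

set_option autoImplicit false

namespace Pool.Agent.V5helper84.AS

open Pool.Agent.R387.TC Pool.Agent.N77.CS Pool.Agent.V5helper35.AS

theorem t_COVA (hC : S_CPOW) : S_COVA := by
  intro n m L θ hn hL K₁ hK₁ hK₁f
  obtain ⟨n', rfl⟩ : ∃ n', n = n' + 1 := ⟨n - 1, by omega⟩
  have hk : 1 ≤ L.normalCore.index := by
    have : L.normalCore.FiniteIndex := inferInstance
    exact Nat.one_le_iff_ne_zero.2 this.index_ne_zero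
  obtain ⟨k, hkd⟩ : ∃ k, k = L.normalCore.index := ⟨_, rfl⟩
  rw [← hkd] at hk
  obtain ⟨K₂, hc2, hf2, hK₂⟩ := hC n' (by omega) k hk K₁ hK₁ hK₁f
  have hn2 : K₂.Normal := inferInstance
  -- the group `θ⁻¹ (K₂)`
  let f : F m →* F (n' + 1) := L.subtype.comp θ.toMonoidHom
  have hf : ∀ x, f x = (θ x : F (n' + 1)) := fun x => rfl
  have hW : (K₂.comap f).FiniteIndex := fi_comap f K₂
  have hWn : (K₂.comap f).Normal := inferInstance
  refine ⟨core m (F m ⧸ K₂.comap f), core_char _ _, core_fin _ _, ?_⟩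
  intro α β g' hext hconj
  let q : F (n' + 1) →* F (n' + 1) ⧸ K₂ := QuotientGroup.mk' K₂
  have hq : ∀ x, q x = 1 ↔ x ∈ K₂ := fun x => QuotientGroup.eq_one_iff x
  obtain ⟨g, hg⟩ : ∃ g : F (n' + 1), g = (θ g' : F (n' + 1)) := ⟨_, rfl⟩
  rw [← hg]
  have h1 : ∀ l ∈ L, q (α l) = q g * q l * (q g)⁻¹ := by
    intro l hl
    obtain ⟨x, hx⟩ := θ.surjective ⟨l, hl⟩
    have hx' : l = f x := by rw [hf, hx]
    have h2 : β x * (g' * x * g'⁻¹)⁻¹ ∈ K₂.comap f :=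
      (QuotientGroup.eq_one_iff _).1 (mem_core.1 (hconj x) (QuotientGroup.mk' (K₂.comap f)))
    have h3 : q (f (β x * (g' * x * g'⁻¹)⁻¹)) = 1 := (hq _).2 h2
    rw [map_mul, map_mul, map_inv, map_inv, mul_inv_eq_one] at h3
    rw [hx', hf, hext x, ← hf, h3, hg, ← hf, ← hf]
    simp only [map_mul, map_inv]
  intro u
  have hw : u⁻¹ * (g⁻¹ * α u * g) ∈ K₁ := by
    apply hK₂
    intro x
    have hx : x ^ k ∈ L.normalCore := by
      rw [hkd]
      exact Subgroup.pow_index_mem L.normalCore x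
    obtain ⟨l, hl⟩ : ∃ l, l = x ^ k := ⟨_, rfl⟩
    rw [← hl] at hx ⊢
    have hnc : L.normalCore.Normal := inferInstance
    have h2 := h1 l (L.normalCore_le hx)
    have h3 := h1 (u * l * u⁻¹) (L.normalCore_le (hnc.conj_mem l hx u))
    apply (hq _).1
    simp only [map_mul, map_inv] at h2 h3 ⊢
    rw [h2] at h3
    -- h3 : q (α u) * (q g * q l * (q g)⁻¹) * (q (α u))⁻¹ = q g * (q u * q l * (q u)⁻¹) * (q g)⁻¹
    have h4 : (q g)⁻¹ * (q (α u) * (q g * q l * (q g)⁻¹) * (q (α u))⁻¹) * q g = q u * q l * (q u)⁻¹ := by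
      rw [h3]; group
    have h5 : (q u)⁻¹ * ((q g)⁻¹ * q (α u) * q g) * q l * ((q u)⁻¹ * ((q g)⁻¹ * q (α u) * q g))⁻¹ * (q l)⁻¹ =
        (q u)⁻¹ * ((q g)⁻¹ * (q (α u) * (q g * q l * (q g)⁻¹) * (q (α u))⁻¹) * q g) * q u * (q l)⁻¹ := by
      group
    rw [h5, h4]
    group
  have h6 := hK₁.conj_mem _ hw (g * u)
  have h7 : g * u * (u⁻¹ * (g⁻¹ * α u * g)) * (g * u)⁻¹ = α u * (g * u * g⁻¹)⁻¹ := by group
  rwa [h7] at h6

end Pool.Agent.V5helper84.AS
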