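import Pool.Agent.V5helper35.AS.Stm

/-! Project AS, job COVER. -/

set_option autoImplicit false

namespace Pool.Agent.V5helper84.AS

open Pool.Agent.R387.TC Pool.Agent.N77.CS Pool.Agent.V5helper35.AS

section
variable {n m : ℕ} {L : Subgroup (F n)} (θ : F m ≃* L)

/-- `β` is the restriction of `α` -/
def Res (α : MulAut (F n)) (β : MulAut (F m)) : Prop := ∀ x : F m, α (θ x : F n) = (θ (β x) : F n)

lemma Res.mul {α α' : MulAut (F n)} {β β' : MulAut (F m)} (h : Res θ α β) (h' : Res θ α' β') :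
    Res θ (α * α') (β * β') := by
  intro x
  rw [MulAut.mul_apply, h' x, h (β' x)]
  rfl

lemma Res.one : Res θ (1 : MulAut (F n)) (1 : MulAut (F m)) := fun _ => rfl

lemma Res.inv {α : MulAut (F n)} {β : MulAut (F m)} (h : Res θ α β) : Res θ α⁻¹ β⁻¹ := by
  intro x
  have h1 := h (β⁻¹ x)
  rw [MulAut.apply_inv_self] at h1
  rw [← h1, MulAut.inv_apply_self]

lemma Res.unique {α : MulAut (F n)} {β β' : MulAut (F m)} (h : Res θ α β) (h' : Res θ α β') : β = β' := by
  ext x
  apply θ.injective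
  apply Subtype.ext
  rw [← h x, ← h' x]

lemma exists_res (α : MulAut (F n)) (h : L.map (α : F n ≃* F n).toMonoidHom = L) : ∃ β, Res θ α β := by
  refine ⟨θ.trans (((α : F n ≃* F n).subgroupMap L).trans ((MulEquiv.subgroupCongr h).trans θ.symm)), ?_⟩
  intro x
  change α (θ x : F n) = (θ (θ.symm (MulEquiv.subgroupCongr h ((α : F n ≃* F n).subgroupMap L (θ x)))) : F n)
  rw [MulEquiv.apply_symm_apply]
  rfl

/-- the elements of `G` which have a restriction in `V` -/
def resSub (G : Subgroup (MulAut (F n))) (V : Subgroup (MulAut (F m))) : Subgroup (MulAut (F n)) where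
  carrier := {α | α ∈ G ∧ ∃ β ∈ V, Res θ α β}
  mul_mem' := by
    rintro a b ⟨h1, β, h2, h3⟩ ⟨h1', β', h2', h3'⟩
    exact ⟨G.mul_mem h1 h1', β * β', V.mul_mem h2 h2', h3.mul θ h3'⟩
  one_mem' := ⟨G.one_mem, 1, V.one_mem, Res.one θ⟩
  inv_mem' := by
    rintro a ⟨h1, β, h2, h3⟩
    exact ⟨G.inv_mem h1, β⁻¹, V.inv_mem h2, h3.inv θ⟩

lemma mem_resSub (G : Subgroup (MulAut (F n))) (V : Subgroup (MulAut (F m))) (α : MulAut (F n)) :
    α ∈ resSub θ G V ↔ α ∈ G ∧ ∃ β ∈ V, Res θ α β := Iff.rfl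

/-- the restriction -/
noncomputable def resHom (G : Subgroup (MulAut (F n))) (G' : Subgroup (MulAut (F m))) :
    resSub θ G G' →* MulAut (F m) where
  toFun α := α.2.2.choose
  map_one' := Res.unique θ (α := 1) (1 : resSub θ G G').2.2.choose_spec.2 (Res.one θ)
  map_mul' a b := Res.unique θ (α := ((a * b : resSub θ G G') : MulAut (F n))) (a * b).2.2.choose_spec.2
    (a.2.2.choose_spec.2.mul θ b.2.2.choose_spec.2)

lemma resHom_spec (G : Subgroup (MulAut (F n))) (G' : Subgroup (MulAut (F m))) (α : resSub θ G G') :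
    resHom θ G G' α ∈ G' ∧ Res θ (α : MulAut (F n)) (resHom θ G G' α) := α.2.2.choose_spec

lemma resSub_fin (G : Subgroup (MulAut (F n))) (G' V : Subgroup (MulAut (F m))) (hV : V.relIndex G' ≠ 0) :
    (resSub θ G V).relIndex (resSub θ G G') ≠ 0 := by
  have h1 : (resSub θ G V).subgroupOf (resSub θ G G') = V.comap (resHom θ G G') := by
    ext α
    rw [Subgroup.mem_subgroupOf, Subgroup.mem_comap, mem_resSub]
    constructor
    · rintro ⟨_, β, h2, h3⟩
      rwa [(resHom_spec θ G G' α).2.unique θ h3]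
    · intro h
      exact ⟨α.2.1, _, h, (resHom_spec θ G G' α).2⟩
  unfold Subgroup.relIndex
  rw [h1, Subgroup.index_comap]
  intro h
  apply hV
  refine Subgroup.relIndex_eq_zero_of_le_right ?_ h
  rintro _ ⟨α, rfl⟩
  exact (resHom_spec θ G G' α).1

lemma char_inf {k : ℕ} {K K' : Subgroup (F k)} (h : K.Characteristic) (h' : K'.Characteristic) : (K ⊓ K').Characteristic := by
  rw [Subgroup.characteristic_iff_le_comap] at h h' ⊢
  intro φ x hx
  exact ⟨h φ hx.1, h' φ hx.2⟩

lemma all_fin (hL : L.FiniteIndex) (G : Subgroup (MulAut (F n))) (G' : Subgroup (MulAut (F m)))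
    (hG : ∀ β, β ∈ G' ↔ ∃ α ∈ G, Res θ α β) : (resSub θ G G').relIndex G ≠ 0 := by
  have hnf : L.normalCore.FiniteIndex := inferInstance
  have hc := core_char n (F n ⧸ L.normalCore)
  have hf := core_fin n (F n ⧸ L.normalCore)
  have hle : core n (F n ⧸ L.normalCore) ≤ L := by
    intro x hx
    exact L.normalCore_le ((QuotientGroup.eq_one_iff x).1 (mem_core.1 hx (QuotientGroup.mk' L.normalCore)))
  have hT := trivSub_fin (core n (F n ⧸ L.normalCore))
  have h1 : ∀ α ∈ trivSub (core n (F n ⧸ L.normalCore)), ∀ l ∈ L, α l ∈ L := by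
    intro α hα l hl
    have h2 : α l * l⁻¹ ∈ L := hle (hα l)
    have h3 := L.mul_mem h2 hl
    rwa [inv_mul_cancel_right] at h3
  have h2 : trivSub (core n (F n ⧸ L.normalCore)) ⊓ G ≤ resSub θ G G' := by
    rintro α ⟨hα, hαG⟩
    have h3 : L.map (α : F n ≃* F n).toMonoidHom = L := by
      apply le_antisymm
      · rintro _ ⟨l, hl, rfl⟩
        exact h1 α hα l hl
      · intro l hl
        refine ⟨α⁻¹ l, h1 α⁻¹ ((trivSub _).inv_mem hα) l hl, ?_⟩
        change α (α⁻¹ l) = l
        rw [MulAut.apply_inv_self]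
    obtain ⟨β, hβ⟩ := exists_res θ α h3
    exact ⟨hαG, β, (hG β).2 ⟨α, hαG, hβ⟩, hβ⟩
  intro h3
  have h4 := Subgroup.relIndex_eq_zero_of_le_left h2 h3
  rw [Subgroup.inf_relIndex_right] at h4
  exact hT.index_ne_zero (Subgroup.index_eq_zero_of_relIndex_eq_zero h4)

end

theorem t_COVER (hCOVA : S_COVA) : S_COVER := by
  intro n m G G' L θ hn hL hOk hG
  obtain ⟨hn1, hcong, H, hnorm, hconj⟩ := hOk
  have hm : 1 ≤ m := by
    by_contra hm
    have hm0 : m = 0 := by omega
    subst hm0
    have hfin : Finite L := Finite.of_equiv _ θ.toEquiv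
    have : Finite (F n) := by
      have h1 : Nat.card (F n) ≠ 0 := by
        rw [← Subgroup.card_mul_index L]
        exact mul_ne_zero (Nat.card_pos).ne' hL.index_ne_zero
      exact Nat.finite_of_card_ne_zero h1
    have : Nonempty (Fin n) := ⟨⟨0, by omega⟩⟩
    have : Infinite (F n) := inferInstance
    exact not_finite (F n)
  refine ⟨hm, ?_, (H.subgroupOf L).comap θ.toMonoidHom, ?_, ?_⟩
  · intro V hVG hV
    have h1 : resSub θ G V ≤ G := fun α hα => hα.1
    have h2 : (resSub θ G V).relIndex G ≠ 0 :=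
      Subgroup.relIndex_ne_zero_trans (resSub_fin θ G G' V hV) (all_fin θ hL G G' hG)
    obtain ⟨K₁, hc1, hf1, hK₁⟩ := hcong _ h1 h2
    have hn1 : K₁.Normal := inferInstance
    obtain ⟨K', hc', hf', hK'⟩ := hCOVA n m L θ hn hL K₁ hn1 hf1
    refine ⟨K', hc', hf', fun β hβ htriv => ?_⟩
    obtain ⟨α, hα, hres⟩ := (hG β).1 hβ
    have h3 := hK' α β 1 hres (fun x => by simpa using htriv x)
    have h4 : Triv K₁ α := fun x => by simpa using h3 x
    obtain ⟨_, β', hβ', hres'⟩ := hK₁ α hα h4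
    rwa [Res.unique θ hres hres']
  · intro L' hL' hLf'
    let j : F m →* F n := L.subtype.comp θ.toMonoidHom
    have hj : ∀ x, j x = (θ x : F n) := fun _ => rfl
    have hjinj : Function.Injective j := L.subtype_injective.comp θ.injective
    have hidx : (L'.map j).index ≠ 0 := by
      rw [Subgroup.index_map_of_injective L' hjinj]
      apply mul_ne_zero hLf'.index_ne_zero
      have : j.range = L := by
        ext x
        constructor
        · rintro ⟨y, rfl⟩
          exact (θ y).2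
        · intro hx
          obtain ⟨y, hy⟩ := θ.surjective ⟨x, hx⟩
          exact ⟨y, by rw [hj, hy]⟩
      rw [this]
      exact hL.index_ne_zero
    have hMf : (L'.map j).FiniteIndex := ⟨hidx⟩
    obtain ⟨K₁, hc1, hf1, hle1, hK₁⟩ := hnorm (L'.map j).normalCore inferInstance inferInstance
    have hn1 : K₁.Normal := inferInstance
    obtain ⟨K', hc', hf', hK'⟩ := hCOVA n m L θ hn hL K₁ hn1 hf1
    have hcc := core_fin m (F m ⧸ L')
    refine ⟨K' ⊓ core m (F m ⧸ L'), char_inf hc' (core_char _ _), inferInstance, ?_, ?_⟩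
    · intro x hx
      exact (QuotientGroup.eq_one_iff x).1 (mem_core.1 hx.2 (QuotientGroup.mk' L'))
    · intro β hβ g' hg'
      obtain ⟨α, hα, hres⟩ := (hG β).1 hβ
      have h3 := hK' α β g' hres (fun x => (hg' x).1)
      obtain ⟨h, hh, hgh⟩ := hK₁ α hα _ h3
      obtain ⟨l', hl', hl⟩ := (L'.map j).normalCore_le hgh
      have h4 : h = j (g' * l') := by
        rw [map_mul, hl, hj]
        group
      refine ⟨g' * l', ?_, ?_⟩
      · change j (g' * l') ∈ H
        rwa [← h4]
      · rwa [inv_mul_cancel_left]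
  · intro h hh
    rw [hG]
    refine ⟨MulAut.conj (θ h : F n), hconj _ hh, fun x => ?_⟩
    rw [MulAut.conj_apply, MulAut.conj_apply, map_mul, map_mul, map_inv]
    rfl

end Pool.Agent.V5helper84.AS
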